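import Pool.Agent.helper80.HM.SpecC

/-!
# hm:LEA (MP_069684)
-/

set_option autoImplicit false

namespace Pool.Agent.HM

open Finset Pool.Agent.helper38.Neg Pool.Agent.helper55.NT
open Pool.Agent.LN (HC)

lemma LEA_trans {a n t : ℕ} {L : List (Fn n × ℕ)} {m m' : ℕ} {G G' : Set (Fn n × ℕ)}
    (h : Ext a n t L m G) (h' : ∀ L' : List (Fn n × ℕ), HSL a n t L' → Ext a n t L' m' G') :
    Ext a n t L (m + m') (G ∪ G') := by
  obtain ⟨L1, h1, h2, h3, h4⟩ := h
  obtain ⟨L2, h5, h6, h7, h8⟩ := h' L1 h1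
  refine ⟨L2, h5, by omega, fun p hp => h7 p (h3 p hp), ?_⟩
  rintro p (hp | hp)
  · exact h7 p (h4 p hp)
  · exact h8 p hp

lemma LEA_mono {a n t : ℕ} {L : List (Fn n × ℕ)} {m m' : ℕ} {G G' : Set (Fn n × ℕ)}
    (h : Ext a n t L m G) (hm : m ≤ m') (hG : G' ⊆ G) : Ext a n t L m' G' := by
  obtain ⟨L1, h1, h2, h3, h4⟩ := h
  exact ⟨L1, h1, by omega, h3, fun p hp => h4 p (hG hp)⟩

lemma LEA_fam {a n t m : ℕ} (G : ℕ → Set (Fn n × ℕ)) (K : ℕ)
    (h : ∀ i < K, ∀ L : List (Fn n × ℕ), HSL a n t L → Ext a n t L m (G i)) :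
    ∀ L : List (Fn n × ℕ), HSL a n t L → Ext a n t L (K * m) {p | ∃ i < K, p ∈ G i} := by
  induction K with
  | zero =>
    intro L hL
    exact ⟨L, hL, by omega, fun p hp => hp, fun p hp => by
      obtain ⟨i, hi, _⟩ := hp
      omega⟩
  | succ K ih =>
    intro L hL
    have h1 := ih (fun i hi => h i (by omega)) L hL
    have h2 := LEA_trans h1 (h K (by omega))
    refine LEA_mono h2 (by rw [Nat.succ_mul]) ?_
    rintro p ⟨i, hi, hp⟩
    rcases Nat.lt_succ_iff_lt_or_eq.mp hi with h3 | h3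
    · exact Or.inl ⟨i, h3, hp⟩
    · exact Or.inr (h3 ▸ hp)

/-- one window -/
lemma LEA_win (hUNF : UNF_stmt) {a n t s : ℕ} (f : Fn n) (C : Circuit n s) (o : Fin (n + s)) (b : ℕ)
    (ha : 2 ≤ a) (hf : Mon f) (hC : ∀ x, C.val x o = f x) (hb : 1 ≤ b) (k : ℕ)
    (L : List (Fn n × ℕ)) (hL : HSL a n t L) :
    Ext a n t L (4 * b * (s + 1) * (n + 2) ^ (b + 2))
      {((fun x => decide (k ≤ wt x) && (decide (k + b ≤ wt x) || f x)), 0)} := by
  obtain ⟨s', hs', C', o', h1, h2⟩ := window_circuit f hf C o hC k b hb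
  refine LEA_mono (hUNF L C' ha hL h1) hs' ?_
  rintro p hp
  refine ⟨o', ?_⟩
  rw [Set.mem_singleton_iff] at hp
  rw [hp]
  congr 1
  funext x
  exact (h2 x).symm

theorem LEA (hUNF : UNF_stmt) (hWIM : WIM_stmt) : LEA_stmt := by
  intro a n t s f C o b K ha hf hC hb
  have hW : ∀ i < K, ∀ L : List (Fn n × ℕ), HSL a n t L →
      Ext a n t L (4 * b * (s + 1) * (n + 2) ^ (b + 2)) {(Wn f (i * b) ((i + 1) * b), 0)} := by
    intro i _ L hL
    have h1 := LEA_win hUNF f C o b ha hf hC hb (i * b) L hL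
    have h2 : (Wn f (i * b) ((i + 1) * b)) =
        (fun x => decide (i * b ≤ wt x) && (decide (i * b + b ≤ wt x) || f x)) := by
      funext x
      unfold Wn
      rw [show (i + 1) * b = i * b + b by ring]
    rw [h2]
    exact h1
  have hT : ∀ j < n + 2, ∀ L : List (Fn n × ℕ), HSL a n t L →
      Ext a n t L (8 * b * (n + 2) ^ (b + 2)) {(Th j, 0)} := by
    intro j _ L hL
    have h1 := LEA_win hUNF (s := 1) (fun _ : Fin n → Bool => true)
      (Circuit.snoc Circuit.nil (Gate.const true)) (Fin.last n) b ha (hWIM f hf).2.2.2.2.1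
      (fun x => by simp [Circuit.val, Gate.eval]) hb j L hL
    have h2 : (Th j : Fn n) =
        (fun x => decide (j ≤ wt x) && (decide (j + b ≤ wt x) || true)) := by
      funext x
      unfold Th
      simp
    rw [h2]
    refine LEA_mono h1 (le_of_eq ?_) (subset_refl _)
    ring
  have h3 := LEA_trans (LEA_fam (fun i => {(Wn f (i * b) ((i + 1) * b), 0)}) K hW [] HSL.nil)
    (LEA_fam (fun j => {((Th j : Fn n), 0)}) (n + 2) hT)
  refine LEA_mono h3 le_rfl ?_
  rintro p (⟨i, hi, rfl⟩ | ⟨j, rfl⟩)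
  · exact Or.inl ⟨i, hi, rfl⟩
  · right
    by_cases hj : j < n + 2
    · exact ⟨j, hj, rfl⟩
    · refine ⟨n + 1, by omega, ?_⟩
      rw [Set.mem_singleton_iff]
      congr 1
      funext x
      have h4 := wt_le x
      unfold Th
      rw [decide_eq_false (by omega), decide_eq_false (by omega)]

end Pool.Agent.HM
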